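import Pool.Agent.R926.SC.SixF4

/-!
# Nowhere-zero `Z_2^3`-flows with four lines

A finite graph (parallel edges allowed) has the vertex set `V` and the edge set `E`; the
ends of the edge `e` are `s e` and `t e`.  Let `C_1, ..., C_m` be sets of edges of a bridgeless graph `G`, such that each `C_i` has at most four
edges outside the union of the earlier ones and no bridge modulo this union (circuits, or open or
closed ears), or contains two disjoint sets each of which connects all that `C_i` connects modulo
this union.  Let `F` be their union, and assume that at most sixteen components of the graph `(V, F)`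
have an odd number of boundary edges in `G`.  Then `G` has a map to the Petersen graph for which
preimages of cycles are cycles (`R926/SC/PetMix.lean`), and
if `G` is cubic and `v₀` a vertex, a nowhere-zero `Z_2^3`-flow with values in four given lines
with prescribed values at `v₀`.
For the proof of the statement on maps to the Petersen graph see MP_03045a_co/SixteenOddPieces.
-/

set_option autoImplicit false

open Finset

namespace Pool.Agent.Results.MP_9b53a1_co.SixteenOddPieces

/-- The edges with exactly one end in `Y`. -/
def boundary {V E : Type} [DecidableEq V] [Fintype E] (s t : E → V) (Y : Finset V) : Finset E :=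
  Finset.univ.filter (fun e => ¬ (s e ∈ Y ↔ t e ∈ Y))

/-- The component of `x` in the graph with the vertices `V` and the edges `F`. -/
noncomputable def component {V E : Type} [Fintype V] (s t : E → V) (F : Finset E) (x : V) :
    Finset V :=
  open Classical in Finset.univ.filter (fun y =>
    Relation.EqvGen (fun a b => ∃ e ∈ F, s e = a ∧ t e = b) x y)

/-- The union of the sets `C j` with `j < i`. -/
def earlier {E : Type} [DecidableEq E] {m : ℕ} (C : Fin m → Finset E) (i : Fin m) : Finset E :=
  (Finset.univ.filter (fun j => j < i)).biUnion C

/-- `H` can be added to the chain after `F`: either (short) `H` has at most four edges outside `F`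
and no bridge modulo `F`: no set `Y` of vertices without boundary edges in `F` has exactly one
boundary edge in `H`; or (doubly connected) `H` contains two disjoint sets each of which connects,
modulo `F`, whatever `H` connects: every set `Y` of vertices without boundary edges in `F` and with
a boundary edge in `H` has boundary edges in both sets. -/
def Step {V E : Type} [DecidableEq V] [Fintype E] [DecidableEq E] (s t : E → V)
    (F H : Finset E) : Prop :=
  ((H \ F).card ≤ 4 ∧ ∀ Y : Finset V, Disjoint (boundary s t Y) F →
    (boundary s t Y ∩ H).card ≠ 1) ∨
  ∃ T₁ T₂ : Finset E, T₁ ⊆ H ∧ T₂ ⊆ H ∧ Disjoint T₁ T₂ ∧ ∀ Y : Finset V,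
    Disjoint (boundary s t Y) F → ¬ Disjoint (boundary s t Y) H →
      ¬ Disjoint (boundary s t Y) T₁ ∧ ¬ Disjoint (boundary s t Y) T₂

/-- the edges at the vertex `v` -/
def star {V E : Type} [DecidableEq V] [Fintype E] (s t : E → V) (v : V) : Finset E :=
  univ.filter fun e => s e = v ∨ t e = v

/-- four of the seven lines of the Fano plane: the three lines through `(1,1,1)` and the line of the
three points with exactly one coordinate zero -/
def fourLines : Finset (Finset (Fin 3 → ZMod 2)) :=
  {{![0, 0, 1], ![1, 1, 0], ![1, 1, 1]}, {![0, 1, 0], ![1, 0, 1], ![1, 1, 1]},
    {![1, 0, 0], ![0, 1, 1], ![1, 1, 1]}, {![0, 1, 1], ![1, 0, 1], ![1, 1, 0]}}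

/-- Let `G` be a finite cubic graph, given by the two ends `s e` and `t e` of each edge `e`, such that
no set of vertices is left by exactly one edge, and `C 0, ..., C (m - 1)` sets of edges such that each
`C i` can be added after the union of the earlier ones (`Step`: at most four new edges and no bridge,
or two disjoint connectors).  If at most sixteen components of the graph with the vertices of `G`,
whose edges are the elements of the sets `C i`, have an odd number of boundary edges, then every assignment of the three
points of one of the four lines in `fourLines` to the three edges at a vertex `v₀` extends to a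
nowhere-zero `Z_2^3`-flow of `G` such that at every vertex the values form one of the four lines. -/
theorem result (V E : Type) [Fintype V] [DecidableEq V] [Fintype E] [DecidableEq E] (s t : E → V)
    (hl : ∀ e, s e ≠ t e) (hc : ∀ v, (star s t v).card = 3)
    (hb : ∀ Y : Finset V, (boundary s t Y).card ≠ 1) (m : ℕ) (C : Fin m → Finset E)
    (h1 : ∀ i, Step s t (earlier C i) (C i))
    (h2 : ((Finset.univ.image (component s t (Finset.univ.biUnion C))).filter
      (fun X => Odd (boundary s t X).card)).card ≤ 16)
    (v₀ : V) (g : E → Fin 3 → ZMod 2) (hg : (star s t v₀).image g ∈ fourLines) :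
    ∃ f : E → Fin 3 → ZMod 2, (∀ e, f e ≠ 0) ∧ (∀ v, ∑ e ∈ star s t v, f e = 0) ∧
      (∀ v, (star s t v).image f ∈ fourLines) ∧ ∀ e ∈ star s t v₀, f e = g e := by
  obtain ⟨D, hD, h4⟩ := Pool.Agent.R926.SC.Cor.six_chain s t hb m C (Pool.Agent.R926.SC.st_of s t m C h1) h2
  exact Pool.Agent.R926.SC.F4.ext4 hl hc hD h4 v₀ g hg

end Pool.Agent.Results.MP_9b53a1_co.SixteenOddPieces
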